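import Pool.Agent.T63.RB.Base
import Pool.Agent.N375.AV.D

/-!
# Bundles of rank two on projective spaces with discriminant near values of additive functions

Let `E` be a complex vector bundle of rank two on `ℙ^n` with the Chern classes `c₁`, `c₂` and the discriminant
`D = c₁² - 4 c₂`. Let `F = f_1 ∘ ⋯ ∘ f_k` be a composition of functions dominated by the largest prime
factor (`PD`), for example additive functions `f` with `f (q^j) ≤ C q^j` at the prime powers, with different
values at different large primes (the sum of the prime factors), the largest prime factor itself, and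
Kempner's function. Let `G` have steps bounded below by a positive constant and growth at most `v ^ e`, for
example `G v = v` or `G v = 5 v²`. Let `A > 0` (arbitrarily large), `κ ≥ 0`, and let
`s = max (0, 1/2 - 2√e / A)`, where `2√e = 3.29…`. If `e s + κ < 1` then for all `m ≤ M` but
`K M exp (- c (log M)^(1 / (k + 1)))`, ALL dimensions `n` and ALL bundles of rank two on `ℙ^n` with
`|D| ≤ n ^ A` and `||D| - G (F m)| ≤ F(m) ^ κ` have the Chern classes of a direct sum of two line bundles. The
values of `F` are taken with very large multiplicities and `F(m)` is in general much smaller than `m`; and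
so this does not follow from the number of the exceptional `D`.

Proof: the starting library `N375/AV` (preimages of thin sets under functions dominated by the largest
prime factor) and the starting theorem `MP_b01859_ag.FewExceptionalClasses`, from which we deduce that at
most `X ^ (s + o(1))` of the integers `D` in `[-X, X]` are exceptional for some `n ≥ |D| ^ (1 / A)`.
-/

set_option autoImplicit false

namespace Pool.Agent.Results.MP_b01859_ag.AdditiveDiscriminants

open Pool.Agent.T63.RB
open Pool.Agent.N733.TG (Expanding expanding_pow)
open Pool.Agent.N375.AV (PD comp good pd_additive pd_largest pd_kempner)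

/-- **Chern classes of rank two bundles with discriminant near the values of compositions of additive
functions.** For all `A > 0`, compositions `F = comp fs` of functions dominated by the largest prime factor,
`G` with steps `≥ a > 0` and growth at most `v ^ e`, `κ ≥ 0` with `e max (0, 1/2 - 2√e / A) + κ < 1` (where
`√e` is `exp (1 / 2)`): for all `m ≤ M` but `K M exp (- c (log M)^(1 / (k + 1)))`, for ALL integers `D` with
`||D| - G (F m)| ≤ F(m) ^ κ`, ALL `n` with `|D| ≤ n ^ A` and ALL pairs of integers `c₁`, `c₂` of discriminant
`c₁² - 4 c₂ = D` which satisfy the Riemann-Roch conditions on `ℙ^n` there are integers `a`, `b` with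
`c₁ = a + b`, `c₂ = a b` (`Split A D`). The additive functions with `f (q^j) ≤ C q^j` which are injective at
the large primes, the largest prime factor and Kempner's function are examples of such functions, and
`α v ^ e` with `α > 0`, `e ≥ 1` is an example of `G`. -/
theorem result :
    ∀ A : ℝ, 0 < A →
      ∀ fs : List (ℕ → ℕ), (∀ f ∈ fs, PD f) →
      ∀ (G : ℕ → ℝ) (e : ℝ), Expanding G e → ∀ κ : ℝ, 0 ≤ κ →
      e * max 0 (1 / 2 - 2 * Real.exp (1 / 2) / A) + κ < 1 →
      ∃ c K : ℝ, 0 < c ∧ ∀ M : ℕ, 1 ≤ M →
      ({m : ℕ | 1 ≤ m ∧ m ≤ M ∧ ¬ ∀ D : ℤ, |(|(D : ℝ)| - G (comp fs m))| ≤ (comp fs m : ℝ) ^ κ →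
          Split A D}.ncard : ℝ) ≤
        K * M * Real.exp (-(c * Real.log M ^ ((1 : ℝ) / (fs.length + 1)))) := by
  intro A hA fs hfs G e hG κ hκ h1
  obtain ⟨c, K, hc, hcK⟩ := good (fun _ : ℤ => True) (fun D : ℤ => Split A D)
    (fun D : ℤ => |(D : ℝ)|) fs hfs hG (s := expo A) (κ := κ) (expo_nonneg A) hκ h1 (countε hA)
  refine ⟨c, K, hc, fun M hM => le_trans (le_of_eq ?_) (hcK M hM)⟩
  congr 2
  ext m
  simp

end Pool.Agent.Results.MP_b01859_ag.AdditiveDiscriminants
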