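import Pool.Agent.Helper9N.Main

set_option autoImplicit false

/-!
# Nef bundles of rank two on `ℙ^n` with `c₁ < n²` split

Let `E` be a nef (for example a globally generated) vector bundle of rank two on `ℙ^n`, `n ≥ 7`, with
the Chern classes `c₁`, `c₂`, which does not split. We use the following facts.

(1) The Riemann-Roch conditions for `T² - c₁ T + c₂`.

(2) Let `M` be the tautological class on `P(E)` (line bundle quotients) and `h` the class of a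
hyperplane. Both are nef, and the intersection number of `M^(j+1)` and `h^(n-j)` is `h_j`, where
`h_0 = 1`, `h_1 = c₁`, `h_(j+2) = c₁ h_(j+1) - c₂ h_j`. So `h_j ≥ 0` for `j ≤ n`.

(3) Let `4 c₂ ≤ c₁²`. Then `E` is not stable (Barth, Bogomolov). Let `a` be the largest integer such
that `F = E(-a)` has a section `t ≠ 0`, and `b = c₁ - a ≤ a`. The scheme of zeros `Z` of `t` has
codimension two, and `deg Z = c₂ - a b`. It is not empty, and `deg Z ≥ n² / 4` (integral part); the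
proof of this inequality is explained in `MP_014caa_ag.QuarticDegree` of the starting files (there is
a point where `t` vanishes to the order `n / 2`). The section `t` is an effective divisor of the
class `M - a h` on `P(E)`; its intersection number with `M^j`, `h^(n-j)` is not negative:
`h_j ≥ a h_(j-1)` for `1 ≤ j ≤ n`.

We show:

* `12 c₁ > n²` for all `n ≥ 7`, and `c₁ ≥ n²`, `c₂ ≥ n² [n² / 4]` if `4 c₂ ≤ c₁²`;
* `c₁ ≥ n²` and `c₂ ≥ n² [n² / 4]` in all cases for all sufficiently large `n`; and for all `ε > 0` and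
  all `n ≥ n₀(ε)` even `c₁ ≥ n ^ (2 √e + 1 - ε)` and `c₂ ≥ n ^ (4 √e + 2 - ε)`, unless `c₁² - 4 c₂` is a
  square, that is, unless `E` has the Chern classes of a direct sum of two line bundles. Here
  `2 √e + 1 = 4.29…`.

In other words, every nef bundle of rank two on `ℙ^n` with `12 c₁ ≤ n²`, `n ≥ 7`, or with `c₁ < n²`,
`n` large, splits; every stable globally generated bundle of rank two has `c₁ ≥ n ^ (4.29)`, `n` large.
(Known: nef bundles of rank two with `c₁ ≤ n + 1`, Fano bundles, and the globally generated ones with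
`c₂ < (n - 1) (n + 5)`, by the theorems of Ran and of Holme and Schneider.)

Proof. Let `D = c₁² - 4 c₂`, and `x`, `y` the roots of `T² - c₁ T + c₂`.

Let `D < 0`. The roots are `ρ e^(± i θ)`, and `h_j = ρ^j sin ((j + 1) θ) / sin θ`; so (2) gives
`θ ≤ π / (n + 1)`, and `4 (n + 1)² |D| ≤ 49 c₁²`. By (1), `|D|` is at least about `n² / 9` (for
`n < 495` by a computation), and at least `n ^ (4 √e - ε)` for large `n` (`BurgessDiscriminant`).

Let `D ≥ 0`, and `z = c₂ - a b = (a - x) (a - y) ≥ [n² / 4]`. We have `h_j = y^j + x h_(j-1)` and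
`h_j = x^j + y h_(j-1)`, so (3) gives `(a - x) h_(n-1) ≤ y^n` and `(a - y) h_(n-1) ≤ x^n`. The product
of these inequalities and `h_(n-1) ≥ n (x y)^((n-1)/2)` give `c₂ ≥ z n²`. If `D` is not a square, then
`x - y = √D ≥ n ^ (2 √e - ε)`. By the first inequality `(a - x) (x^n - y^n) ≤ (x - y) y^n`, and so
`(x / y)^n ≤ (a - y) / (a - x) ≤ (1 + x - y)²`; by Bernoulli's inequality `y` is larger than
`(x - y) n ^ (1 - ε)`.
-/

open Filter Polynomial

namespace Pool.Agent.Results.MP_b01859_ag.NefBundles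

open Pool.Agent.R920.CH Pool.Agent.R852.BC Pool.Agent.N998.CT Pool.Agent.Helper9N

/-- The numbers `h_0 = 1`, `h_1 = c₁`, `h_(j+2) = c₁ h_(j+1) - c₂ h_j`: the coefficients of
`1 / (1 - c₁ T + c₂ T²)`. -/
def segre (c₁ c₂ : ℤ) : ℕ → ℤ
  | 0 => 1
  | 1 => c₁
  | j + 2 => c₁ * segre c₁ c₂ (j + 1) - c₂ * segre c₁ c₂ j

/-- The conditions (1), (2), (3) on the Chern classes `c₁`, `c₂` of a nef bundle of rank two on `ℙ^n`
which does not split. -/
structure Conditions (n : ℕ) (c₁ c₂ : ℤ) : Prop where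
  riemannRoch : RiemannRoch n (X ^ 2 - C c₁ * X + C c₂)
  nef : ∀ j : ℕ, j ≤ n → 0 ≤ segre c₁ c₂ j
  unstable : 4 * c₂ ≤ c₁ ^ 2 → ∃ a b : ℤ, a + b = c₁ ∧ b ≤ a ∧ (n : ℤ) ^ 2 / 4 ≤ c₂ - a * b ∧
    ∀ j : ℕ, j + 1 ≤ n → a * segre c₁ c₂ j ≤ segre c₁ c₂ (j + 1)

lemma segre_eq (c₁ c₂ : ℤ) : ∀ j : ℕ, segre c₁ c₂ j = seg c₁ c₂ j := by
  intro j
  induction j using Nat.twoStepInduction with
  | zero => rfl
  | one => rfl
  | more n ih1 ih2 => rw [segre, seg, ih1, ih2]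

lemma pos_case (n : ℕ) (hn : 2 ≤ n) (c₁ c₂ : ℤ) (hc : Conditions n c₁ c₂)
    (hD : 4 * c₂ ≤ c₁ ^ 2) : (n : ℤ) ^ 2 ≤ c₁ ∧ (n : ℤ) ^ 2 * ((n : ℤ) ^ 2 / 4) ≤ c₂ := by
  obtain ⟨a, b, hab, hba, hz, h⟩ := hc.unstable hD
  exact unstable_bound n hn c₁ c₂ a b hab hba hz hD fun j hj => by
    rw [← segre_eq, ← segre_eq]; exact h j hj

lemma large : ∀ᶠ n : ℕ in atTop, ∀ c₁ c₂ : ℤ, Conditions n c₁ c₂ →
    (n : ℤ) ^ 2 ≤ c₁ ∧ (n : ℤ) ^ 2 * ((n : ℤ) ^ 2 / 4) ≤ c₂ := by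
  filter_upwards [asym_neg 1 one_pos, eventually_ge_atTop 2] with n h1 hn c₁ c₂ hc
  have hRR : RiemannRoch n (poly2 c₁ c₂) := hc.riemannRoch
  rcases lt_or_ge (c₁ ^ 2) (4 * c₂) with h | h
  · obtain ⟨g1, g2⟩ := h1 c₁ c₂ hRR (fun j hj => by rw [← segre_eq]; exact hc.nef j hj) h
    have hn1 : (1 : ℝ) ≤ n := by exact_mod_cast (by omega : 1 ≤ n)
    have hE := exp_half_bounds.1
    constructor
    · have h2 : (n : ℝ) ^ (2 : ℝ) ≤ (n : ℝ) ^ (2 * Real.exp (1 / 2) + 1 - 1) :=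
        Real.rpow_le_rpow_of_exponent_le hn1 (by linarith)
      have h3 : (n : ℝ) ^ 2 ≤ c₁ := by
        rw [show (2 : ℝ) = ((2 : ℕ) : ℝ) by norm_num, Real.rpow_natCast] at h2
        push_cast at h2
        exact h2.trans g1
      exact_mod_cast h3
    · have h2 : (n : ℝ) ^ (4 : ℝ) ≤ (n : ℝ) ^ (4 * Real.exp (1 / 2) + 2 - 1) :=
        Real.rpow_le_rpow_of_exponent_le hn1 (by linarith)
      have h3 : (n : ℝ) ^ 4 ≤ c₂ := by
        rw [show (4 : ℝ) = ((4 : ℕ) : ℝ) by norm_num, Real.rpow_natCast] at h2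
        push_cast at h2
        exact h2.trans g2
      have h4 : (n : ℤ) ^ 4 ≤ c₂ := by exact_mod_cast h3
      have h5 : (n : ℤ) ^ 2 / 4 ≤ (n : ℤ) ^ 2 := by
        have : (0 : ℤ) ≤ (n : ℤ) ^ 2 := by positivity
        omega
      calc (n : ℤ) ^ 2 * ((n : ℤ) ^ 2 / 4) ≤ (n : ℤ) ^ 2 * (n : ℤ) ^ 2 :=
            mul_le_mul_of_nonneg_left h5 (by positivity)
        _ = (n : ℤ) ^ 4 := by ring
        _ ≤ c₂ := h4
  · exact pos_case n hn c₁ c₂ hc h

/-- **The Chern classes of nef bundles of rank two which do not split.** -/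
theorem result :
    (∀ n : ℕ, 7 ≤ n → ∀ c₁ c₂ : ℤ, Conditions n c₁ c₂ → (n : ℤ) ^ 2 < 12 * c₁ ∧
      (4 * c₂ ≤ c₁ ^ 2 → (n : ℤ) ^ 2 ≤ c₁ ∧ (n : ℤ) ^ 2 * ((n : ℤ) ^ 2 / 4) ≤ c₂)) ∧
    ∀ ε : ℝ, 0 < ε → ∃ n₀ : ℕ, ∀ n : ℕ, n₀ ≤ n → ∀ c₁ c₂ : ℤ, Conditions n c₁ c₂ →
      (n : ℤ) ^ 2 ≤ c₁ ∧ (n : ℤ) ^ 2 * ((n : ℤ) ^ 2 / 4) ≤ c₂ ∧
      (¬ IsSquare (c₁ ^ 2 - 4 * c₂) → (n : ℝ) ^ (2 * Real.exp (1 / 2) + 1 - ε) ≤ c₁ ∧
        (n : ℝ) ^ (4 * Real.exp (1 / 2) + 2 - ε) ≤ c₂) := by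
  refine ⟨?_, fun ε hε => eventually_atTop.mp ?_⟩
  · intro n hn c₁ c₂ hc
    have hRR : RiemannRoch n (poly2 c₁ c₂) := hc.riemannRoch
    have hnr : (7 : ℤ) ≤ n := by exact_mod_cast hn
    rcases lt_or_ge (c₁ ^ 2) (4 * c₂) with h | h
    · obtain ⟨h1, h2⟩ := explicit_neg n hn c₁ c₂ hRR
        (fun j hj => by rw [← segre_eq]; exact hc.nef j hj) h
      exact ⟨h1, fun h3 => absurd h3 (not_le.mpr h)⟩
    · obtain ⟨h1, h2⟩ := pos_case n (by omega) c₁ c₂ hc h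
      have h3 : 0 < (n : ℤ) ^ 2 := by positivity
      exact ⟨by linarith, fun _ => ⟨h1, h2⟩⟩
  · filter_upwards [large, asym_neg ε hε, asym_pos ε hε, eventually_ge_atTop 2]
      with n h0 h1 h2 hn c₁ c₂ hc
    refine ⟨(h0 c₁ c₂ hc).1, (h0 c₁ c₂ hc).2, fun hns => ?_⟩
    have hRR : RiemannRoch n (poly2 c₁ c₂) := hc.riemannRoch
    rcases lt_or_ge (c₁ ^ 2) (4 * c₂) with h | h
    · exact h1 c₁ c₂ hRR (fun j hj => by rw [← segre_eq]; exact hc.nef j hj) h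
    · obtain ⟨a, b, hab, hba, hz, h3⟩ := hc.unstable h
      have hn2 : (2 : ℤ) ≤ n := by exact_mod_cast hn
      have hn4 : (4 : ℤ) ≤ (n : ℤ) ^ 2 := by nlinarith
      refine h2 c₁ c₂ a b hRR h hns hab hba (by omega) fun j hj => ?_
      rw [← segre_eq, ← segre_eq]
      exact h3 j hj

end Pool.Agent.Results.MP_b01859_ag.NefBundles
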