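import Pool.Agent.Helper9E.Main

set_option autoImplicit false

/-!
# Few exceptional discriminants of bundles of rank two up to `exp (n ^ c)`, `c < 1 / 2`

Let `E` be a complex vector bundle of rank two on `ℙ^n` with the Chern classes `c₁`, `c₂`. The theorem
of Riemann-Roch gives the Riemann-Roch conditions for the polynomial `T² - c₁ T + c₂`. They hold for the
classes `a + b`, `a b` of direct sums of line bundles; `c₁`, `c₂` are of this form if and only if the
discriminant `c₁² - 4 c₂` is a square. We show for all real numbers `0 < c < 1 / 2` and `ε > 0`, all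
`n ≥ n₀(c, ε)` and all `X ≤ exp (n ^ c)`:

At most `√X / n ^ (2 √e - ε)` integers `D` with `|D| ≤ X` which are not squares are the discriminants of
pairs satisfying the Riemann-Roch conditions.

Here `2 √e = 3.29…`. There are about `√X` squares `D ≤ X`; so up to `exp (n ^ c)`, `c < 1 / 2`, almost
all discriminants of the solutions of the Riemann-Roch conditions are those of the direct sums of line
bundles. In particular the set of the second Chern classes `c₂ ≤ X` of stable bundles of rank two with
`c₁ = 0` has at most `2 √X / n ^ (2 √e - ε)` elements. (`FewExceptionalClasses` of the starting files is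
the case of `X ≤ n ^ A`.)

The proof. By the Riemann-Roch conditions `D` is a square modulo all odd primes `p < n`. Let `D = f s²`
with a squarefree integer `f ≠ 1`. If `f` is not a square modulo the odd prime `p < n`, then `p` divides
`s`; so `P_f ∣ s`, where `P_f` is the product of these exceptional primes. Let `g = f P_f²`. It is a
square modulo all `p < n`, and at most `√(X / |g|)` integers `D` with `|D| ≤ X` belong to `f`. It remains
to bound the sum of `|g| ^ (-1/2)` over all `g` with `|g| ≤ X`.

(1) All `g` are larger than `n ^ (4 √e - ε)` (Burgess, Vinogradov), and at most `n ^ ε` of them are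
smaller than any given power of `n` (`FewExceptionalClasses`).

(2) Let `n ^ (1 / δ) ≤ Y ≤ exp (n ^ c)`. At most `n ^ c / log 2` primes are exceptional for an `f` with
`|g| ≤ Y`, or divide `f`. So the sum of the symbols `(f / m)` over the products `m` of `B` different odd
primes below `n` is at least one half of the number of these products, for `B ≤ 2 n ^ c`: here `c < 1 / 2`
is used. We take `B` minimal with `n ^ B ≥ Y`; the large sieve inequality of Heath-Brown for real
characters (which is proved in the starting library, `Pool.Agent.H423R2.RZL.HBLS`) shows that there are at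
most `Y ^ (c + 6 δ)` such `f`, which is less than `Y ^ (1/2 - δ)` for `2 c + 20 δ = 1`. So the sum of
`|g| ^ (-1/2)` over the `g` with `|g| ≥ n ^ (4 / δ)` is less than a constant times `n ^ (-4)`.
-/

namespace Pool.Agent.Results.MP_b01859_ag.SubexponentialRange

open Pool.Agent.R920.CH

/-- **Few exceptional discriminants up to `exp (n ^ c)`.** -/
theorem result (c ε : ℝ) (hc0 : 0 < c) (hc : c < 1 / 2) (hε : 0 < ε) : ∃ n₀ : ℕ, ∀ n ≥ n₀,
    ∀ X : ℝ, 0 ≤ X → X ≤ Real.exp ((n : ℝ) ^ c) → ∀ S : Finset ℤ,
      (∀ D ∈ S, |(D : ℝ)| ≤ X ∧ ¬ IsSquare D ∧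
        ∃ c₁ c₂ : ℤ, RiemannRoch n (poly2 c₁ c₂) ∧ c₁ ^ 2 - 4 * c₂ = D) →
      (S.card : ℝ) ≤ √X / (n : ℝ) ^ (2 * Real.exp (1 / 2) - ε) := by
  obtain ⟨n₁, h₁⟩ := Filter.eventually_atTop.mp (Pool.Agent.Helper9E.disc3 c ε hc0 hc hε)
  exact ⟨n₁, fun n hn X hX0 hX S hS => h₁ n hn X hX0 hX S hS⟩

end Pool.Agent.Results.MP_b01859_ag.SubexponentialRange
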