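import Pool.Agent.T63.RB.Base
import Pool.Agent.N760.IT.D

/-!
# Bundles of rank two on projective spaces with discriminant near the members of almost all orbits of Euler's function

Let `E` be a complex vector bundle of rank two on `ℙ^n` with the Chern classes `c₁`, `c₂` and the discriminant
`D = c₁² - 4 c₂`. Let `φ_k` be the `k`-th iterate of Euler's function, `φ_0(m) = m`. Let `f` be a positive
multiplicative function of at most polynomial growth such that `f p ≤ M p` for the large primes `p`, with
different values at different large primes; for example the identity, Euler's function or the sum of the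
divisors. Let `G` have steps bounded below by a positive constant and growth at most `v ^ e`, for example
`G v = v` or `G v = 5 v²`. Let `A > 0` (arbitrarily large), `κ ≥ 0`, and `s = max (0, 1/2 - 2√e / A)`, where
`2√e = 3.29…`. If `e s + κ < 1` then there is `K(m)` tending to infinity such that for almost all `m`, for
all `k ≤ K(m)`, with `v = f(φ_k(m))`, ALL dimensions `n` and ALL bundles of rank two on `ℙ^n` with
`|D| ≤ n ^ A` and `||D| - G v| ≤ v ^ κ` have the Chern classes of a direct sum of two line bundles. The values
of `f ∘ φ_k` are in general taken with very large multiplicities, and so this does not follow from the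
number of the exceptional `D`.

Proof: the starting library `N760/IT` and the starting theorem `MP_b01859_ag.FewExceptionalClasses`, from
which we deduce that at most `X ^ (s + o(1))` of the integers `D` in `[-X, X]` are exceptional for some
`n ≥ |D| ^ (1 / A)`.
-/

set_option autoImplicit false

namespace Pool.Agent.Results.MP_b01859_ag.TotientDiscriminants

open Filter
open Pool.Agent.T63.RB
open Pool.Agent.N733.TG (LM Expanding lm_totient lm_sigma expanding_pow)
open Pool.Agent.N760.IT (orb lm_id orbit_windows')
open Pool.Agent.N826.IT.Orb (AlmostAll)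

/-- **Chern classes of rank two bundles with discriminant near the orbits of Euler's function.** Let `A > 0`,
let `f` be multiplicative and positive, of at most polynomial growth, with `f p ≤ M p` at the large primes,
and injective there; let `G` have steps `≥ a > 0` and growth at most `v ^ e`, `κ ≥ 0` and
`e max (0, 1/2 - 2√e / A) + κ < 1` (where `√e` is `exp (1 / 2)`). Then there is `K(m)` tending to infinity
such that for almost all `m`, for all `k ≤ K(m)`, with `v = f(φ_k(m))` (`orb f k m`), for ALL integers `D` with
`||D| - G v| ≤ v ^ κ`, ALL `n` with `|D| ≤ n ^ A` and ALL pairs of integers `c₁`, `c₂` of discriminant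
`c₁² - 4 c₂ = D` which satisfy the Riemann-Roch conditions on `ℙ^n` there are integers `a`, `b` with
`c₁ = a + b`, `c₂ = a b` (`Split A D`). The identity, Euler's function and the sum of the divisors are
examples of such functions `f`, and `α v ^ e` with `α > 0`, `e ≥ 1` is an example of `G`. -/
theorem result :
    ∀ A : ℝ, 0 < A →
      ∀ f : ℕ → ℕ, LM f → ∀ (G : ℕ → ℝ) (e : ℝ), Expanding G e → ∀ κ : ℝ, 0 ≤ κ →
      e * max 0 (1 / 2 - 2 * Real.exp (1 / 2) / A) + κ < 1 →
      ∃ K : ℕ → ℕ, Tendsto K atTop atTop ∧
        AlmostAll (fun m => ∀ k ≤ K m, ∀ D : ℤ,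
          |(|(D : ℝ)| - G (orb f k m))| ≤ (orb f k m : ℝ) ^ κ → Split A D) := by
  intro A hA f hf G e hG κ hκ h1
  obtain ⟨c, hc, h1'⟩ : ∃ ε : ℝ, 0 < ε ∧ e * (expo A + ε) + κ < 1 := by
    have h2 : e * expo A + κ < 1 := h1
    refine ⟨(1 - (e * expo A + κ)) / (2 * (|e| + 1)), by
      have : 0 < 1 - (e * expo A + κ) := by linarith
      positivity, ?_⟩
    have h3 : 0 < 1 - (e * expo A + κ) := by linarith
    have h4 : e * ((1 - (e * expo A + κ)) / (2 * (|e| + 1))) ≤ (1 - (e * expo A + κ)) / 2 := by
      have h5 : e ≤ |e| + 1 := by linarith [le_abs_self e]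
      have h6 : (1 - (e * expo A + κ)) / 2 =
          (|e| + 1) * ((1 - (e * expo A + κ)) / (2 * (|e| + 1))) := by
        field_simp
      rw [h6]
      exact mul_le_mul_of_nonneg_right h5 (by positivity)
    rw [mul_add]
    linarith
  have hs : 0 ≤ expo A + c := by
    have := expo_nonneg A
    linarith
  obtain ⟨K, hK, h2⟩ := orbit_windows' {D : ℤ | ¬ Split A D}
    (fun D : ℤ => |(D : ℝ)|) hf hG (s := expo A + c) (κ := κ) hs hκ h1' (counts hA hc)
  refine ⟨K, hK, ?_⟩
  refine Pool.Agent.N826.IT.Orb.almostAll_mono h2 fun m h k hk D hD => ?_
  by_contra h5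
  exact h k hk D h5 hD

end Pool.Agent.Results.MP_b01859_ag.TotientDiscriminants
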